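import Pool.Agent.Helper17.OD.GoalsWM

/-! # Packet OD HR2 -/

namespace Pool.Agent.Helper17.OD.PkHR2

open Set Pool.Agent.Helper17.OD

/-- The map from codes of pairs `pr c (ord ξ)` to pairs. -/
def RR (W : Set Z) (p q : Z) : Prop :=
  ∃ x ∈ W, ∃ y ∈ W, p = ZFSet.pair (zn 2) (ZFSet.pair x (ZFSet.pair (zn 1) y)) ∧ q = ZFSet.pair x y

theorem rr_dp (W : Set Z) [ZM W] : DP W W (fun v => RR W (v 0) (v 1)) := by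
  refine DP.ex (P := fun x v => ∃ y ∈ W, v 0 =
    ZFSet.pair (zn 2) (ZFSet.pair x (ZFSet.pair (zn 1) y)) ∧ v 1 = ZFSet.pair x y) ?_
  refine DP.ex (P := fun y v => v 1 =
    ZFSet.pair (zn 2) (ZFSet.pair (v 0) (ZFSet.pair (zn 1) y)) ∧ v 2 = ZFSet.pair (v 0) y) ?_
  refine DP.and (DP.eq (DT.var 2) ?_) (DP.eq (DT.var 3) ?_)
  · exact DT.pair (DT.nat 2) (DT.pair (DT.var 1) (DT.pair (DT.nat 1) (DT.var 0)))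
  · exact DT.pair (DT.var 1) (DT.var 0)

theorem rr_inj {W : Set Z} {p q q' : Z} (h : RR W p q) (h' : RR W p q') : q = q' := by
  obtain ⟨x, _, y, _, h1, rfl⟩ := h
  obtain ⟨x', _, y', _, h2, rfl⟩ := h'
  rw [h1] at h2
  obtain ⟨-, h3⟩ := ZFSet.pair_inj.1 h2
  obtain ⟨h4, h5⟩ := ZFSet.pair_inj.1 h3
  obtain ⟨-, h6⟩ := ZFSet.pair_inj.1 h5
  rw [h4, h6]

theorem rr_enc {W : Set Z} [ZM W] {c : T} {ξ : O} (h : enc (.pr c (.ord ξ)) ∈ W) :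
    ZFSet.pair (enc c) ξ.toZFSet ∈ W ∧
      RR W (enc (.pr c (.ord ξ))) (ZFSet.pair (enc c) ξ.toZFSet) := by
  have h1 : enc (.pr c (.ord ξ)) =
      ZFSet.pair (zn 2) (ZFSet.pair (enc c) (ZFSet.pair (zn 1) ξ.toZFSet)) := rfl
  rw [h1] at h ⊢
  have h2 := (mem_of_pair h).2
  have h3 := mem_of_pair h2
  have h4 := (mem_of_pair h3.2).2
  exact ⟨ZM.pair h3.1 h4, enc c, h3.1, ξ.toZFSet, h4, rfl, rfl⟩

theorem thm (hRT : G_HRT) (hCS : G_WCS) (hEN : G_ENC) : G_HR2 := by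
  intro W κ hz hHt μ hμ
  haveI := hz
  obtain ⟨hc1, -⟩ := hCS W κ hz hHt
  obtain ⟨s, hsO, hs⟩ := hc1 μ hμ
  have hsW : s ∈ W := hsO.1
  obtain ⟨l, hl, hL⟩ := hRT W κ hz hHt s hsW
  refine ⟨l, hl, ?_⟩
  rintro G ⟨-, A, hA, hAG⟩ E hGE hfun hon
  have hAel : ∀ p ∈ A, ∃ c ∈ D (Iio μ), ∃ ξ ∈ E, Tr.pr c (.ord ξ) ∈ G ∧
      p = enc (.pr c (.ord ξ)) := by
    intro p hp
    obtain ⟨t, ht, rfl⟩ := (hAG p).1 hp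
    obtain ⟨c, hc, ξ, hξ, rfl⟩ := hGE t ht
    exact ⟨c, hc, ξ, hξ, ht, rfl⟩
  obtain ⟨h, hW, hh⟩ := hz.repl (RR W) (rr_dp W) A hA (by
    intro p hp
    obtain ⟨c, -, ξ, -, -, rfl⟩ := hAel p hp
    have h1 := rr_enc (hz.trans A hA _ hp)
    exact ⟨_, h1.1, h1.2, fun y' _ hy' => rr_inj hy' h1.2⟩)
  have hel : ∀ q ∈ h, ∃ c ∈ D (Iio μ), ∃ ξ ∈ E, Tr.pr c (.ord ξ) ∈ G ∧
      q = ZFSet.pair (enc c) ξ.toZFSet := by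
    intro q hq
    obtain ⟨-, p, hp, hR⟩ := (hh q).1 hq
    obtain ⟨c, hc, ξ, hξ, hG, rfl⟩ := hAel p hp
    exact ⟨c, hc, ξ, hξ, hG, rr_inj hR (rr_enc (hz.trans A hA _ hp)).2⟩
  refine hL h hW E ⟨?_, ?_, ?_⟩
  · intro q hq
    obtain ⟨c, hc, ξ, hξ, -, rfl⟩ := hel q hq
    exact ⟨enc c, (hs _).2 ⟨c, hc, rfl⟩, ξ, hξ, rfl⟩
  · intro a b c h1 h2
    obtain ⟨c1, -, ξ1, -, g1, e1⟩ := hel _ h1
    obtain ⟨c2, -, ξ2, -, g2, e2⟩ := hel _ h2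
    obtain ⟨a1, b1⟩ := ZFSet.pair_inj.1 e1
    obtain ⟨a2, b2⟩ := ZFSet.pair_inj.1 e2
    have h3 : c1 = c2 := hEN.1 _ _ (a1.symm.trans a2)
    subst h3
    have h4 := hfun _ _ _ g1 g2
    have h5 : ξ1 = ξ2 := by
      injection h4
    rw [b1, b2, h5]
  · intro ξ hξ
    obtain ⟨c, hc⟩ := hon ξ hξ
    have h1 : enc (.pr c (.ord ξ)) ∈ A := (hAG _).2 ⟨_, hc, rfl⟩
    have h2 := rr_enc (hz.trans A hA _ h1)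
    exact ⟨enc c, (hh _).2 ⟨h2.1, _, h1, h2.2⟩⟩

end Pool.Agent.Helper17.OD.PkHR2
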